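import Pool.Agent.Helper93.GS.Stmts

set_option autoImplicit false

namespace Pool.Agent.Helper93.GS

open Pool.Agent.Helper64.ORStar

theorem gsi_compl {M : Type} [AddCommGroup M] [Module ℚ M] (I W : Submodule ℚ M)
    (hIW : I ≤ W) [Module.Finite ℚ W] :
    ∃ U : Submodule ℚ M, U ≤ W ∧ I ⊔ U = W ∧
      Module.finrank ℚ U = Module.finrank ℚ W - Module.finrank ℚ I ∧ Module.Finite ℚ U := by
  obtain ⟨C, hC⟩ := Submodule.exists_isCompl (I.comap W.subtype)
  refine ⟨C.map W.subtype, ?_, ?_, ?_, ?_⟩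
  · intro x hx
    obtain ⟨y, _, rfl⟩ := hx
    exact y.2
  · have h1 : (I.comap W.subtype).map W.subtype = I := by
      rw [Submodule.map_comap_subtype]
      exact inf_eq_right.2 hIW
    have h2 : (I.comap W.subtype ⊔ C).map W.subtype = W := by
      rw [hC.sup_eq_top, Submodule.map_subtype_top]
    rw [Submodule.map_sup, h1] at h2
    exact h2
  · rw [Submodule.finrank_map_subtype_eq]
    have h1 := Submodule.finrank_add_eq_of_isCompl hC
    have h2 : Module.finrank ℚ (I.comap W.subtype) = Module.finrank ℚ I :=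
      LinearEquiv.finrank_eq (Submodule.comapSubtypeEquivOfLe hIW)
    omega
  · infer_instance

theorem gsi_sup {M ι : Type} [AddCommGroup M] [Module ℚ M] (s : Finset ι)
    (F : ι → Submodule ℚ M) (hF : ∀ i ∈ s, Module.Finite ℚ (F i)) :
    Module.Finite ℚ (s.sup F : Submodule ℚ M) ∧
      Module.finrank ℚ (s.sup F : Submodule ℚ M) ≤ ∑ i ∈ s, Module.finrank ℚ (F i) := by
  classical
  induction s using Finset.induction_on with
  | empty =>
    constructor
    · rw [Finset.sup_empty]; infer_instance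
    · rw [Finset.sup_empty, finrank_bot]; exact Nat.zero_le _
  | insert a s ha ih =>
    obtain ⟨h1, h2⟩ := ih (fun i hi => hF i (Finset.mem_insert_of_mem hi))
    have h3 := hF a (Finset.mem_insert_self a s)
    rw [Finset.sup_insert, Finset.sum_insert ha]
    refine ⟨inferInstance, ?_⟩
    have := Submodule.finrank_add_le_finrank_add_finrank (F a) (s.sup F)
    omega

theorem st_GSI (hMUL : ST_VMUL) (hDEC : ST_VDEC) (hDIM : ST_VDIM) (hIDL : ST_IDL) : ST_GSI := by
  classical
  intro rel hrel hfin h0 n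
  obtain ⟨hle, -, hright, -⟩ := hIDL rel hrel
  haveI hfinV : ∀ m, Module.Finite ℚ (V m) := fun m => (hDIM m).1
  haveI hfinI : ∀ m, Module.Finite ℚ (idl rel m) := fun m =>
    Submodule.finiteDimensional_of_le (hle m)
  have hU : ∀ m, ∃ U : Submodule ℚ R, U ≤ V m ∧ idl rel m ⊔ U = V m ∧
      Module.finrank ℚ U = cd rel m ∧ Module.Finite ℚ U := fun m =>
    gsi_compl (idl rel m) (V m) (hle m)
  choose U hU1 hU2 hU3 hU4 using hU
  -- the three pieces
  let J0 : Submodule ℚ R := (idl rel n).map (LinearMap.mulRight ℚ (X 0))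
  let J1 : Submodule ℚ R := (idl rel n).map (LinearMap.mulRight ℚ (X 1))
  let K : ℕ → R → Submodule ℚ R := fun k f => (U (n + 1 - k)).map (LinearMap.mulRight ℚ f)
  let T : ℕ → Submodule ℚ R := fun k => (hfin k).toFinset.sup (K k)
  let J2 : Submodule ℚ R := (Finset.range (n + 2)).sup T
  have hJ01 : ∀ x y : R, x ∈ idl rel n → y ∈ idl rel n →
      x * X 0 + y * X 1 ∈ J0 ⊔ J1 ⊔ J2 := by
    intro x y hx hy
    refine Submodule.mem_sup_left ?_
    exact Submodule.add_mem_sup ⟨x, hx, rfl⟩ ⟨y, hy, rfl⟩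
  have hscal : ∀ b ∈ V 0, ∃ c : ℚ, b = c • (1 : R) := by
    intro b hb
    have h1 : Module.finrank ℚ (V 0) = 1 := by rw [(hDIM 0).2]; rfl
    have hne : (⟨1, hMUL.2.1⟩ : V 0) ≠ 0 := by
      intro h
      have : (1 : R) = 0 := congrArg Subtype.val h
      exact one_ne_zero this
    obtain ⟨c, hc⟩ := (finrank_eq_one_iff_of_nonzero' _ hne).1 h1 ⟨b, hb⟩
    exact ⟨c, (congrArg Subtype.val hc).symm⟩
  have hincl : idl rel (n + 1) ≤ J0 ⊔ J1 ⊔ J2 := by
    refine Submodule.span_le.2 ?_
    rintro x ⟨i, k, j, hijk, a, ha, f, hf, b, hb, rfl⟩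
    rcases j with _ | j
    · obtain ⟨c, rfl⟩ := hscal b hb
      rcases k with _ | k
      · rw [h0] at hf
        exact absurd hf (Set.notMem_empty f)
      have hin : i + k = n := by omega
      rw [← hU2 i] at ha
      obtain ⟨a', ha', u, hu, rfl⟩ := Submodule.mem_sup.1 ha
      obtain ⟨f0, hf0, f1, hf1, hff⟩ := hDEC k f (hrel (k + 1) hf)
      have e : (a' + u) * f * (c • (1 : R)) =
          c • (((a' * f0) * X 0 + (a' * f1) * X 1) + u * f) := by
        rw [mul_smul_comm, mul_one, add_mul]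
        congr 2
        rw [hff, mul_add, mul_assoc, mul_assoc]
      show (a' + u) * f * (c • (1 : R)) ∈ J0 ⊔ J1 ⊔ J2
      rw [e]
      refine Submodule.smul_mem _ _ (Submodule.add_mem _ (hJ01 _ _ ?_ ?_) ?_)
      · rw [← hin]; exact hright i k a' f0 ha' hf0
      · rw [← hin]; exact hright i k a' f1 ha' hf1
      · refine Submodule.mem_sup_right ?_
        have hk : k + 1 ∈ Finset.range (n + 2) := Finset.mem_range.2 (by omega)
        have h3 : T (k + 1) ≤ J2 := Finset.le_sup hk
        apply h3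
        have h4 : K (k + 1) f ≤ T (k + 1) :=
          Finset.le_sup (f := K (k + 1)) ((hfin (k + 1)).mem_toFinset.2 hf)
        apply h4
        refine ⟨u, ?_, rfl⟩
        have : n + 1 - (k + 1) = i := by omega
        rw [this]; exact hu
    · obtain ⟨b0, hb0, b1, hb1, hbb⟩ := hDEC j b hb
      have e : a * f * b = (a * f * b0) * X 0 + (a * f * b1) * X 1 := by
        rw [hbb, mul_add, mul_assoc (a * f), mul_assoc (a * f)]
      show a * f * b ∈ J0 ⊔ J1 ⊔ J2
      rw [e]
      refine hJ01 _ _ ?_ ?_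
      · exact Submodule.subset_span ⟨i, k, j, by omega, a, ha, f, hf, b0, hb0, rfl⟩
      · exact Submodule.subset_span ⟨i, k, j, by omega, a, ha, f, hf, b1, hb1, rfl⟩
  -- dimensions
  have hT : ∀ k, Module.Finite ℚ (T k) ∧
      Module.finrank ℚ (T k) ≤ (rel k).ncard * cd rel (n + 1 - k) := by
    intro k
    obtain ⟨g1, g2⟩ := gsi_sup (hfin k).toFinset (K k) (fun f _ => by
      haveI := hU4 (n + 1 - k)
      infer_instance)
    refine ⟨g1, g2.trans ?_⟩
    rw [Set.ncard_eq_toFinset_card (rel k) (hfin k), ← smul_eq_mul]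
    refine Finset.sum_le_card_nsmul _ _ _ ?_
    intro f _
    haveI := hU4 (n + 1 - k)
    rw [← hU3 (n + 1 - k)]
    exact Submodule.finrank_map_le _ _
  obtain ⟨hJ2f, hJ2d⟩ := gsi_sup (Finset.range (n + 2)) T (fun k _ => (hT k).1)
  have hJ2 : Module.finrank ℚ J2 ≤
      ∑ k ∈ Finset.range (n + 2), (rel k).ncard * cd rel (n + 1 - k) :=
    hJ2d.trans (Finset.sum_le_sum fun k _ => (hT k).2)
  have hJ0d : Module.finrank ℚ J0 ≤ Module.finrank ℚ (idl rel n) := Submodule.finrank_map_le _ _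
  have hJ1d : Module.finrank ℚ J1 ≤ Module.finrank ℚ (idl rel n) := Submodule.finrank_map_le _ _
  haveI : Module.Finite ℚ J0 := by
    show Module.Finite ℚ ((idl rel n).map (LinearMap.mulRight ℚ (X 0)))
    infer_instance
  haveI : Module.Finite ℚ J1 := by
    show Module.Finite ℚ ((idl rel n).map (LinearMap.mulRight ℚ (X 1)))
    infer_instance
  haveI : Module.Finite ℚ J2 := hJ2f
  have h5 := Submodule.finrank_mono hincl
  have h6 := Submodule.finrank_add_le_finrank_add_finrank (J0 ⊔ J1) J2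
  have h7 := Submodule.finrank_add_le_finrank_add_finrank J0 J1
  have h8 : Module.finrank ℚ (V (n + 1)) = 2 * Module.finrank ℚ (V n) := by
    rw [(hDIM (n + 1)).2, (hDIM n).2, pow_succ]; ring
  have h9 := Submodule.finrank_mono (hle n)
  have h10 := Submodule.finrank_mono (hle (n + 1))
  unfold cd at hJ2 ⊢
  omega

end Pool.Agent.Helper93.GS
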